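import Mathlib

/-! Sequences: geometric means, and the dichotomy. -/

set_option autoImplicit false

open Filter Finset
open scoped Topology

namespace Pool.Agent.Q146.TR

/-- geometric means of a sequence with `√i a_i → κ` -/
lemma geom {a : ℕ → ℝ} {κ : ℝ} (hκ : 0 < κ) (ha : ∀ i, 0 < a i)
    (h : Tendsto (fun i : ℕ => √i * a i) atTop (𝓝 κ)) :
    Tendsto (fun n : ℕ => (n⁻¹ : ℝ) * ∑ i ∈ range n, Real.log (a i ^ 2) + Real.log n) atTop
      (𝓝 (Real.log (κ ^ 2) + 1)) := by
  set X : ℕ → ℝ := fun n => ∑ i ∈ range n, Real.log (a i ^ 2) + n * Real.log n with hX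
  have h1 : Tendsto (fun n : ℕ => ((n : ℝ) + 1) * (Real.log (n + 1) - Real.log n)) atTop (𝓝 1) := by
    have h2 := (Real.tendsto_mul_log_one_add_div_atTop 1).comp tendsto_natCast_atTop_atTop
    have h3 : Tendsto (fun n : ℕ => Real.log (1 + 1 / (n : ℝ))) atTop (𝓝 0) := by
      have : Tendsto (fun n : ℕ => 1 + 1 / (n : ℝ)) atTop (𝓝 (1 + 0)) :=
        tendsto_const_nhds.add tendsto_one_div_atTop_nhds_zero_nat
      rw [add_zero] at this
      have h4 := (Real.continuousAt_log (by norm_num : (1 : ℝ) ≠ 0)).tendsto.comp this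
      rwa [Real.log_one] at h4
    have h5 := h2.add h3
    rw [add_zero] at h5
    refine h5.congr' ?_
    filter_upwards [eventually_gt_atTop 0] with n hn
    have hn' : (0 : ℝ) < n := by exact_mod_cast hn
    simp only [Function.comp_apply]
    have : Real.log (1 + 1 / (n : ℝ)) = Real.log (n + 1) - Real.log n := by
      rw [← Real.log_div (by positivity) hn'.ne']
      congr 1
      field_simp
    rw [this]
    ring
  have h2 : Tendsto (fun n : ℕ => Real.log ((√n * a n) ^ 2)) atTop (𝓝 (Real.log (κ ^ 2))) :=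
    (Real.continuousAt_log (by positivity)).tendsto.comp (h.pow 2)
  have h3 : Tendsto (fun n : ℕ => X (n + 1) - X n) atTop (𝓝 (Real.log (κ ^ 2) + 1)) := by
    refine (h2.add h1).congr' ?_
    filter_upwards [eventually_gt_atTop 0] with n hn
    have hn' : (0 : ℝ) < n := by exact_mod_cast hn
    rw [hX]
    simp only
    rw [Finset.sum_range_succ, mul_pow, Real.sq_sqrt hn'.le,
      Real.log_mul hn'.ne' (by have := ha n; positivity)]
    push_cast
    ring
  have h4 := h3.cesaro
  refine h4.congr' ?_
  filter_upwards [eventually_gt_atTop 0] with n hn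
  have hn' : (0 : ℝ) < n := by exact_mod_cast hn
  rw [Finset.sum_range_sub X, hX]
  simp only [Finset.range_zero, Finset.sum_empty, Nat.cast_zero, zero_mul, add_zero, sub_zero]
  field_simp

/-- the dichotomy -/
lemma dichotomy {a c : ℕ → ℝ} (ha : ∀ i, 0 < a i)
    (hn : Tendsto (fun i => c i ^ 2 + a (i + 1) ^ 2) atTop (𝓝 1))
    (hi : Tendsto (fun i => a i * c i) atTop (𝓝 0)) :
    (Tendsto a atTop (𝓝 1) ∧ Tendsto c atTop (𝓝 0)) ∨
      (Tendsto a atTop (𝓝 0) ∧ Tendsto (fun i => |c i|) atTop (𝓝 1)) := by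
  have e1 : ∀ᶠ i in atTop, |c i ^ 2 + a (i + 1) ^ 2 - 1| < 1 / 16 := by
    have := (hn.sub_const 1).abs
    simp only [sub_self, abs_zero] at this
    exact this.eventually_lt_const (by norm_num)
  have e2 : ∀ᶠ i in atTop, |a i * c i| < 1 / 16 := by
    have := hi.abs
    simp only [abs_zero] at this
    exact this.eventually_lt_const (by norm_num)
  obtain ⟨I, hI⟩ := eventually_atTop.1 (e1.and e2)
  by_cases hcase : ∃ i ≥ I, 1 / 4 ≤ a i
  · left
    obtain ⟨i, hiI, hai⟩ := hcase
    have step : ∀ j ≥ I, 1 / 4 ≤ a j → 1 / 4 ≤ a (j + 1) := by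
      intro j hj haj
      obtain ⟨h1, h2⟩ := hI j hj
      rw [abs_mul, abs_of_pos (ha j)] at h2
      have h3 : |c j| ≤ 1 / 4 := by
        by_contra hc
        rw [not_le] at hc
        nlinarith
      have h4 : c j ^ 2 ≤ 1 / 16 := by
        rw [← sq_abs]
        nlinarith [abs_nonneg (c j)]
      rw [abs_lt] at h1
      have h5 := ha (j + 1)
      nlinarith
    have all : ∀ j ≥ i, 1 / 4 ≤ a j := by
      intro j hj
      induction j, hj using Nat.le_induction with
      | base => exact hai
      | succ j hj ih => exact step j (le_trans hiI hj) ih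
    have hc0 : Tendsto c atTop (𝓝 0) := by
      rw [tendsto_zero_iff_abs_tendsto_zero]
      have h6 : Tendsto (fun i => 4 * |a i * c i|) atTop (𝓝 0) := by
        have := (hi.abs).const_mul 4
        simpa using this
      refine squeeze_zero' (Eventually.of_forall fun i => abs_nonneg _) ?_ h6
      filter_upwards [eventually_ge_atTop i] with j hj
      rw [abs_mul, abs_of_pos (ha j)]
      have := all j hj
      show |c j| ≤ _
      nlinarith [abs_nonneg (c j)]
    refine ⟨?_, hc0⟩
    rw [← tendsto_add_atTop_iff_nat 1]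
    have h7 : Tendsto (fun i => a (i + 1) ^ 2) atTop (𝓝 1) := by
      have := hn.sub (hc0.pow 2)
      simpa using this
    have h8 := h7.sqrt
    rw [Real.sqrt_one] at h8
    refine h8.congr fun i => ?_
    exact Real.sqrt_sq (ha (i + 1)).le
  · right
    push Not at hcase
    have ha0 : Tendsto a atTop (𝓝 0) := by
      have h6 : Tendsto (fun i => 2 * |a i * c i|) atTop (𝓝 0) := by
        have := (hi.abs).const_mul 2
        simpa using this
      refine squeeze_zero' (Eventually.of_forall fun i => (ha i).le) ?_ h6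
      filter_upwards [eventually_ge_atTop I] with j hj
      rw [abs_mul, abs_of_pos (ha j)]
      obtain ⟨h1, h2⟩ := hI j hj
      rw [abs_lt] at h1
      have h3 := hcase (j + 1) (by omega)
      have h4 := ha (j + 1)
      have h5 : 1 / 2 ≤ |c j| := by
        by_contra hc
        rw [not_le] at hc
        have h6 : c j ^ 2 ≤ 1 / 4 := by
          rw [← sq_abs]
          nlinarith [abs_nonneg (c j)]
        nlinarith
      nlinarith [ha j]
    refine ⟨ha0, ?_⟩
    have h7 : Tendsto (fun i => c i ^ 2) atTop (𝓝 1) := by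
      have h8 : Tendsto (fun i => a (i + 1)) atTop (𝓝 0) := ha0.comp (tendsto_add_atTop_nat 1)
      have := hn.sub (h8.pow 2)
      simpa using this
    have h8 := h7.sqrt
    rw [Real.sqrt_one] at h8
    refine h8.congr fun i => ?_
    exact Real.sqrt_sq_eq_abs (c i)

end Pool.Agent.Q146.TR
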