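import Mathlib

/-! Averages of sums over lattice translates, and the volume of sections of a ball. -/

set_option autoImplicit false

open MeasureTheory Set
open scoped ENNReal

namespace Pool.Agent.Q146.TR

/-- volume of the set of the `y` in `ℝ^k` with `|y|² < s` -/
noncomputable def V (k : ℕ) (s : ℝ) : ℝ≥0∞ := volume {y : Fin k → ℝ | ∑ i, y i ^ 2 < s}

lemma V_mono (k : ℕ) : Monotone (V k) := by
  intro s t h
  exact measure_mono fun y hy => lt_of_lt_of_le hy h

lemma V_meas (k : ℕ) : Measurable (V k) := (V_mono k).measurable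

lemma V_nonpos (k : ℕ) {s : ℝ} (hs : s ≤ 0) : V k s = 0 := by
  have : {y : Fin k → ℝ | ∑ i, y i ^ 2 < s} = ∅ := by
    ext y
    simp only [mem_ofPred_eq, mem_empty_iff_false, iff_false, not_lt]
    exact hs.trans (Finset.sum_nonneg fun i _ => sq_nonneg _)
  rw [V, this, measure_empty]

lemma V_succ (k : ℕ) (s : ℝ) : ∫⁻ y : ℝ, V k (s - y ^ 2) = V (k + 1) s := by
  have hmp := volume_preserving_piFinSuccAbove (fun _ : Fin (k + 1) => ℝ) 0
  have hms : MeasurableSet {p : ℝ × (Fin k → ℝ) | p.1 ^ 2 + ∑ i, p.2 i ^ 2 < s} := by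
    apply measurableSet_lt _ measurable_const
    fun_prop
  have h1 := hmp.measure_preimage hms.nullMeasurableSet
  have h2 : (MeasurableEquiv.piFinSuccAbove (fun _ : Fin (k + 1) => ℝ) 0) ⁻¹'
      {p : ℝ × (Fin k → ℝ) | p.1 ^ 2 + ∑ i, p.2 i ^ 2 < s} =
      {y : Fin (k + 1) → ℝ | ∑ i, y i ^ 2 < s} := by
    ext y
    simp only [mem_preimage, mem_ofPred_eq, Fin.sum_univ_succ]
    rfl
  rw [h2] at h1
  rw [V, h1, Measure.volume_eq_prod, Measure.prod_apply hms]
  refine lintegral_congr fun y => ?_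
  rw [V]
  congr 1
  ext z
  simp only [mem_ofPred_eq, mem_preimage]
  constructor <;> intro h <;> linarith

/-- unfolding -/
lemma unfold {a : ℝ} (ha : 0 < a) (f : ℝ → ℝ≥0∞) (hf : Measurable f) :
    ∫⁻ u in Ioc 0 a, ∑' x : ℤ, f (a * x + u) = ∫⁻ u, f u := by
  have hfm : ∀ x : ℤ, AEMeasurable (fun u : ℝ => f (a * x + u)) (volume.restrict (Ioc 0 a)) :=
    fun x => (hf.comp (by fun_prop : Measurable fun u : ℝ => a * (x : ℝ) + u)).aemeasurable
  rw [lintegral_tsum hfm]
  have h1 : ∀ x : ℤ, ∫⁻ u in Ioc 0 a, f (a * x + u) =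
      ∫⁻ u in Ioc (0 + x • a) (0 + (x + 1) • a), f u := by
    intro x
    have h2 := (measurePreserving_add_left (volume : Measure ℝ) (a * x)).setLIntegral_comp_preimage
      (s := Ioc (0 + x • a) (0 + (x + 1) • a)) measurableSet_Ioc hf
    rw [← h2]
    congr 2
    ext u
    simp only [mem_Ioc, mem_preimage, zsmul_eq_mul]
    push_cast
    constructor
    · rintro ⟨h3, h4⟩
      constructor <;> nlinarith
    · rintro ⟨h3, h4⟩
      constructor <;> nlinarith
  simp_rw [h1]
  rw [← lintegral_iUnion (fun x => measurableSet_Ioc) (pairwise_disjoint_Ioc_add_zsmul 0 a),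
    iUnion_Ioc_add_zsmul ha, Measure.restrict_univ]

/-- the average over an interval of length `a` -/
lemma avg {a : ℝ} (ha : 0 < a) (f : ℝ → ℝ≥0∞) (hf : Measurable f) (z : ℤ) (hz : z ≠ 0) :
    ∫⁻ c in Ioc 1 (1 + a), ∑' x : ℤ, f (a * x + c * z) = ∫⁻ u, f u := by
  have : Fact (0 < a) := ⟨ha⟩
  set h0 : ℝ → ℝ≥0∞ := fun u => ∑' x : ℤ, f (a * x + u) with h0d
  have hper : Function.Periodic h0 a := by
    intro u
    rw [h0d]
    simp only
    rw [← (Equiv.addRight (1 : ℤ)).tsum_eq (fun x : ℤ => f (a * x + u))]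
    refine tsum_congr fun x => ?_
    congr 1
    simp only [Equiv.coe_addRight]
    push_cast
    ring
  have hm0 : Measurable h0 := by
    refine Measurable.tsum fun x => hf.comp (by fun_prop)
  have hlift : Measurable (hper.lift) := by
    have : hper.lift = fun y => h0 ((AddCircle.measurableEquivIoc a 0 y : ℝ)) := by
      funext y
      have h2 : ((AddCircle.measurableEquivIoc a 0 y : ℝ) : AddCircle a) = y :=
        (AddCircle.measurableEquivIoc a 0).left_inv y
      conv_lhs => rw [← h2]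
      exact hper.lift_coe _
    rw [this]
    exact hm0.comp (measurable_subtype_coe.comp (AddCircle.measurableEquivIoc a 0).measurable)
  have h1 : ∫⁻ c in Ioc 1 (1 + a), ∑' x : ℤ, f (a * x + c * z) =
      ∫⁻ c in Ioc 1 (1 + a), (fun y : AddCircle a => hper.lift (z • y)) (c : AddCircle a) := by
    refine lintegral_congr fun c => ?_
    show h0 (c * z) = hper.lift (z • (c : AddCircle a))
    rw [← AddCircle.coe_zsmul, hper.lift_coe, zsmul_eq_mul, mul_comm]
  rw [h1, AddCircle.lintegral_preimage a 1 (fun y => hper.lift (z • y)),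
    (Measure.measurePreserving_zsmul (volume : Measure (AddCircle a)) hz).lintegral_comp hlift,
    ← AddCircle.lintegral_preimage a 0 hper.lift]
  simp_rw [hper.lift_coe]
  rw [zero_add]
  exact unfold ha f hf

lemma monotone_sum {a : ℝ} (ha : 0 < a) (k : ℕ) :
    ∑' x : {x : ℤ // x ≠ 0}, V k (1 - (a * x) ^ 2) ≤ V (k + 1) 1 / ENNReal.ofReal a := by
  rw [ENNReal.le_div_iff_mul_le (Or.inl (by simpa using ha)) (Or.inl ENNReal.ofReal_ne_top),
    ← ENNReal.tsum_mul_right, ← V_succ]
  set I : {x : ℤ // x ≠ 0} → Set ℝ := fun x =>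
    if 0 < x.1 then Ioc (a * (x.1 - 1)) (a * x.1) else Ico (a * x.1) (a * (x.1 + 1)) with hI
  have hIm : ∀ x, MeasurableSet (I x) := by
    intro x
    rw [hI]
    simp only
    split_ifs
    · exact measurableSet_Ioc
    · exact measurableSet_Ico
  have hdis : Pairwise (Function.onFun Disjoint I) := by
    intro x y hxy
    rw [Function.onFun, Set.disjoint_left]
    intro u hu hv
    rw [hI] at hu hv
    simp only at hu hv
    apply hxy
    apply Subtype.ext
    have hx0 := x.2
    have hy0 := y.2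
    split_ifs at hu hv with h1 h2 h2
    · have e1 : a * ((x.1 : ℝ) - 1) < a * y.1 := lt_of_lt_of_le hu.1 hv.2
      have e2 : a * ((y.1 : ℝ) - 1) < a * x.1 := lt_of_lt_of_le hv.1 hu.2
      have e3 := lt_of_mul_lt_mul_left e1 ha.le
      have e4 := lt_of_mul_lt_mul_left e2 ha.le
      have e5 : x.1 - 1 < y.1 := by exact_mod_cast e3
      have e6 : y.1 - 1 < x.1 := by exact_mod_cast e4
      omega
    · exfalso
      have e1 : a * ((x.1 : ℝ) - 1) < a * (y.1 + 1) := lt_trans hu.1 hv.2
      have e3 := lt_of_mul_lt_mul_left e1 ha.le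
      have e5 : x.1 - 1 < y.1 + 1 := by exact_mod_cast e3
      omega
    · exfalso
      have e1 : a * ((y.1 : ℝ) - 1) < a * (x.1 + 1) := lt_trans hv.1 hu.2
      have e3 := lt_of_mul_lt_mul_left e1 ha.le
      have e5 : y.1 - 1 < x.1 + 1 := by exact_mod_cast e3
      omega
    · have e1 : a * (x.1 : ℝ) < a * (y.1 + 1) := lt_of_le_of_lt hu.1 hv.2
      have e2 : a * (y.1 : ℝ) < a * (x.1 + 1) := lt_of_le_of_lt hv.1 hu.2
      have e3 := lt_of_mul_lt_mul_left e1 ha.le
      have e4 := lt_of_mul_lt_mul_left e2 ha.le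
      have e5 : x.1 < y.1 + 1 := by exact_mod_cast e3
      have e6 : y.1 < x.1 + 1 := by exact_mod_cast e4
      omega
  have hvol : ∀ x, volume (I x) = ENNReal.ofReal a := by
    intro x
    rw [hI]
    simp only
    split_ifs
    · rw [Real.volume_Ioc]; congr 1; ring
    · rw [Real.volume_Ico]; congr 1; ring
  calc ∑' x : {x : ℤ // x ≠ 0}, V k (1 - (a * x) ^ 2) * ENNReal.ofReal a
      = ∑' x : {x : ℤ // x ≠ 0}, ∫⁻ _ in I x, V k (1 - (a * x) ^ 2) := by
        refine tsum_congr fun x => ?_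
        rw [setLIntegral_const, hvol]
    _ ≤ ∑' x : {x : ℤ // x ≠ 0}, ∫⁻ u in I x, V k (1 - u ^ 2) := by
        refine ENNReal.tsum_le_tsum fun x => ?_
        refine setLIntegral_mono ((V_meas k).comp (by fun_prop)) fun u hu => ?_
        apply V_mono
        have : u ^ 2 ≤ (a * x.1) ^ 2 := by
          rw [sq_le_sq]
          rw [hI] at hu
          simp only at hu
          split_ifs at hu with h1
          · have e1 : (1 : ℝ) ≤ x.1 := by exact_mod_cast h1
            have : 0 ≤ a * ((x.1 : ℝ) - 1) := mul_nonneg ha.le (by linarith)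
            rw [abs_of_nonneg (this.trans hu.1.le), abs_of_nonneg (by positivity)]
            exact hu.2
          · have hx0 := x.2
            have e1 : x.1 + 1 ≤ 0 := by omega
            have e2 : (x.1 : ℝ) + 1 ≤ 0 := by exact_mod_cast e1
            have e3 : a * ((x.1 : ℝ) + 1) ≤ 0 := mul_nonpos_of_nonneg_of_nonpos ha.le e2
            have e4 : u ≤ 0 := hu.2.le.trans e3
            rw [abs_of_nonpos e4, abs_of_nonpos (hu.1.trans e4)]
            linarith [hu.1]
        linarith
    _ = ∫⁻ u in ⋃ x, I x, V k (1 - u ^ 2) := (lintegral_iUnion hIm hdis _).symm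
    _ ≤ ∫⁻ u, V k (1 - u ^ 2) := setLIntegral_le_lintegral _ _

end Pool.Agent.Q146.TR
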