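import Pool.Agent.Q146.TR.Avg

/-! Towers of lattices with tridiagonal Gram matrix: the choice of the coefficients. -/

set_option autoImplicit false

open MeasureTheory Set
open scoped ENNReal

namespace Pool.Agent.Q146.TR

/-- number of the integers `x 0, …, x (k-1)` with `∑_{i<k} (a i x i + c i x (i+1))² < s`, where
`x k = z` -/
noncomputable def Cnt (a c : ℕ → ℝ) : ℕ → ℤ → ℝ → ℝ≥0∞
  | 0, _, s => if 0 < s then 1 else 0
  | k + 1, z, s => ∑' x : ℤ, Cnt a c k x (s - (a k * x + c k * z) ^ 2)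

lemma Cnt_nonpos (a c : ℕ → ℝ) : ∀ (k : ℕ) (z : ℤ) {s : ℝ}, s ≤ 0 → Cnt a c k z s = 0
  | 0, z, s, hs => by simp [Cnt, not_lt.2 hs]
  | k + 1, z, s, hs => by
    rw [Cnt]
    simp only [ENNReal.tsum_eq_zero]
    intro x
    exact Cnt_nonpos a c k x (by nlinarith [sq_nonneg (a k * x + c k * z)])

lemma Cnt_congr (a : ℕ → ℝ) {c c' : ℕ → ℝ} : ∀ (k : ℕ), (∀ i < k, c i = c' i) →
    ∀ (z : ℤ) (s : ℝ), Cnt a c k z s = Cnt a c' k z s
  | 0, _, z, s => rfl
  | k + 1, h, z, s => by
    rw [Cnt, Cnt, h k (Nat.lt_succ_self k)]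
    exact tsum_congr fun x => Cnt_congr a k (fun i hi => h i (Nat.lt_succ_of_lt hi)) _ _

lemma Cnt_pos (a c : ℕ → ℝ) (x : ℕ → ℤ) : ∀ (k : ℕ) {s : ℝ},
    ∑ i ∈ Finset.range k, (a i * x i + c i * x (i + 1)) ^ 2 < s → 1 ≤ Cnt a c k (x k) s
  | 0, s, h => by
    rw [Cnt, if_pos (by simpa using h)]
  | k + 1, s, h => by
    rw [Finset.sum_range_succ] at h
    rw [Cnt]
    exact (Cnt_pos a c x k (by linarith)).trans (ENNReal.le_tsum (x k))

lemma V_zero (s : ℝ) : V 0 s = if 0 < s then 1 else 0 := by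
  rw [V]
  split_ifs with h
  · have : {y : Fin 0 → ℝ | ∑ i, y i ^ 2 < s} = univ := by
      ext y
      simp [h]
    rw [this, volume_pi, Measure.pi_univ]
    simp
  · have : {y : Fin 0 → ℝ | ∑ i, y i ^ 2 < s} = ∅ := by
      ext y
      simp [h]
    rw [this, measure_empty]

/-- product of the first `k` numbers -/
noncomputable def D (a : ℕ → ℝ) (k : ℕ) : ℝ := ∏ i ∈ Finset.range k, a i

lemma D_pos {a : ℕ → ℝ} (ha : ∀ i, 0 < a i) (k : ℕ) : 0 < D a k :=
  Finset.prod_pos fun i _ => ha i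

theorem main_ineq {a : ℕ → ℝ} (ha : ∀ i, 0 < a i) : ∀ (k : ℕ) (J : Type) [Countable J] (z : J → ℤ)
    (s : J → ℝ), (∀ j, z j ≠ 0 ∨ s j ≤ 0) → (∀ j, s j ≤ 1) →
    ∃ c : ℕ → ℝ, (∀ i, c i ∈ Icc 1 (1 + a i)) ∧
      ∑' j, Cnt a c k (z j) (s j) +
        ∑ m ∈ Finset.range k, ∑' x : {x : ℤ // x ≠ 0}, Cnt a c m x (1 - (a m * x) ^ 2) ≤
      (∑' j, V k (s j)) / ENNReal.ofReal (D a k) +
        ∑ m ∈ Finset.range k, V (m + 1) 1 / ENNReal.ofReal (D a (m + 1))
  | 0, J, _, z, s, _, _ => by
    refine ⟨fun _ => 1, fun i => ⟨le_rfl, by linarith [ha i]⟩, ?_⟩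
    simp only [Finset.range_zero, Finset.sum_empty, add_zero, D, Finset.prod_empty,
      ENNReal.ofReal_one, div_one]
    refine ENNReal.tsum_le_tsum fun j => ?_
    rw [V_zero, Cnt]
  | k + 1, J, _, z, s, hz, hs => by
    have hak := ha k
    -- the choice of `c k`
    set F : ℝ → ℝ≥0∞ := fun t => ∑' j, ∑' x : ℤ, V k (s j - (a k * x + t * z j) ^ 2) with hF
    have hFm : Measurable F := by
      refine Measurable.tsum fun j => Measurable.tsum fun x => (V_meas k).comp (by fun_prop)
    have hFint : ∫⁻ t in Ioc 1 (1 + a k), F t = ∑' j, V (k + 1) (s j) := by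
      have hjm : ∀ j, Measurable fun t : ℝ =>
          ∑' x : ℤ, V k (s j - (a k * x + t * z j) ^ 2) := fun j =>
        Measurable.tsum fun x => (V_meas k).comp
          (by fun_prop : Measurable fun t : ℝ => s j - (a k * (x : ℝ) + t * (z j : ℝ)) ^ 2)
      rw [hF]
      simp only
      rw [lintegral_tsum (fun j => (hjm j).aemeasurable)]
      refine tsum_congr fun j => ?_
      rcases hz j with h | h
      · rw [avg hak (fun u => V k (s j - u ^ 2)) ((V_meas k).comp (by fun_prop)) (z j) h, V_succ]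
      · rw [V_nonpos _ h]
        rw [lintegral_eq_zero_iff (hjm j)]
        refine Filter.Eventually.of_forall fun t => ?_
        simp only [Pi.zero_apply, ENNReal.tsum_eq_zero]
        intro x
        exact V_nonpos k (by nlinarith [sq_nonneg (a k * x + t * z j)])
    obtain ⟨ck, hck, hck2⟩ := exists_le_setLAverage (μ := volume) (s := Ioc 1 (1 + a k))
      (f := F) (by rw [Real.volume_Ioc]; simpa using hak)
      (by rw [Real.volume_Ioc]; exact ENNReal.ofReal_ne_top) hFm.aemeasurable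
    rw [setLAverage_eq, hFint, Real.volume_Ioc, show 1 + a k - 1 = a k by ring] at hck2
    -- the new family
    obtain ⟨c, hc, hc2⟩ := main_ineq ha k ((J × ℤ) ⊕ {x : ℤ // x ≠ 0})
      (Sum.elim (fun p => p.2) (fun x => x.1))
      (Sum.elim (fun p => s p.1 - (a k * p.2 + ck * z p.1) ^ 2) (fun x => 1 - (a k * x.1) ^ 2))
      (by
        rintro (⟨j, x⟩ | x)
        · simp only [Sum.elim_inl]
          by_cases hx : x = 0
          · right
            subst hx
            rcases hz j with h | h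
            · have h1 : (1 : ℝ) ≤ (z j : ℝ) ^ 2 := by
                have : (1 : ℤ) ≤ (z j) ^ 2 := by
                  have := sq_pos_of_ne_zero h |>.le
                  have h0 : 0 < (z j) ^ 2 := by positivity
                  omega
                exact_mod_cast this
              have h2 : (1 : ℝ) ≤ ck ^ 2 := by nlinarith [hck.1]
              have h3 := hs j
              have h4 : (1 : ℝ) ≤ ck ^ 2 * (z j : ℝ) ^ 2 := by nlinarith
              push_cast
              nlinarith
            · nlinarith [sq_nonneg (a k * ((0 : ℤ) : ℝ) + ck * z j)]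
          · left; exact hx
        · left
          exact x.2)
      (by
        rintro (⟨j, x⟩ | x)
        · simp only [Sum.elim_inl]
          nlinarith [sq_nonneg (a k * x + ck * z j), hs j]
        · simp only [Sum.elim_inr]
          nlinarith [sq_nonneg (a k * (x.1 : ℝ))])
    refine ⟨Function.update c k ck, ?_, ?_⟩
    · intro i
      by_cases hi : i = k
      · subst hi
        rw [Function.update_self]
        exact ⟨hck.1.le, hck.2⟩
      · rw [Function.update_of_ne hi]
        exact hc i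
    have hcc : ∀ m ≤ k, ∀ (z : ℤ) (s : ℝ),
        Cnt a (Function.update c k ck) m z s = Cnt a c m z s := by
      intro m hm z s
      refine Cnt_congr a m (fun i hi => ?_) z s
      rw [Function.update_of_ne (by omega)]
    have hsum : ∀ f : (J × ℤ) ⊕ {x : ℤ // x ≠ 0} → ℝ≥0∞,
        ∑' p, f p = ∑' j, ∑' x : ℤ, f (Sum.inl (j, x)) + ∑' x : {x : ℤ // x ≠ 0}, f (Sum.inr x) := by
      intro f
      rw [Summable.tsum_sum ENNReal.summable ENNReal.summable, ← ENNReal.tsum_prod]
    rw [hsum, hsum] at hc2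
    simp only [Sum.elim_inl, Sum.elim_inr] at hc2
    have e1 : ∑' j, Cnt a (Function.update c k ck) (k + 1) (z j) (s j) =
        ∑' j, ∑' x : ℤ, Cnt a c k x (s j - (a k * x + ck * z j) ^ 2) := by
      refine tsum_congr fun j => ?_
      rw [Cnt]
      refine tsum_congr fun x => ?_
      rw [hcc k le_rfl, Function.update_self]
    have e2 : ∑ m ∈ Finset.range (k + 1), ∑' x : {x : ℤ // x ≠ 0},
        Cnt a (Function.update c k ck) m x (1 - (a m * x) ^ 2) =
        ∑ m ∈ Finset.range (k + 1), ∑' x : {x : ℤ // x ≠ 0}, Cnt a c m x (1 - (a m * x) ^ 2) := by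
      refine Finset.sum_congr rfl fun m hm => ?_
      rw [Finset.mem_range] at hm
      exact tsum_congr fun x => hcc m (by omega) _ _
    rw [e1, e2, Finset.sum_range_succ, Finset.sum_range_succ (fun m => V (m + 1) 1 / _)]
    have hD : ENNReal.ofReal (D a (k + 1)) = ENNReal.ofReal (a k) * ENNReal.ofReal (D a k) := by
      rw [← ENNReal.ofReal_mul hak.le, D, Finset.prod_range_succ, mul_comm]
      rfl
    have hk0 : ENNReal.ofReal (a k) ≠ 0 := by simpa using hak
    have hkt : ENNReal.ofReal (a k) ≠ ∞ := ENNReal.ofReal_ne_top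
    have hD0 : ENNReal.ofReal (D a k) ≠ 0 := by simpa using D_pos ha k
    have e3 : ∀ r : ℝ≥0∞, r / ENNReal.ofReal (D a (k + 1)) =
        r / ENNReal.ofReal (a k) / ENNReal.ofReal (D a k) := by
      intro r
      rw [hD, ENNReal.div_eq_inv_mul, ENNReal.mul_inv (Or.inl hk0) (Or.inl hkt),
        ENNReal.div_eq_inv_mul, ENNReal.div_eq_inv_mul]
      ring
    calc _ = ∑' j, ∑' x : ℤ, Cnt a c k x (s j - (a k * x + ck * z j) ^ 2) +
          ∑' x : {x : ℤ // x ≠ 0}, Cnt a c k x (1 - (a k * x) ^ 2) +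
          ∑ m ∈ Finset.range k, ∑' x : {x : ℤ // x ≠ 0}, Cnt a c m x (1 - (a m * x) ^ 2) := by ring
      _ ≤ (∑' j, ∑' x : ℤ, V k (s j - (a k * x + ck * z j) ^ 2) +
          ∑' x : {x : ℤ // x ≠ 0}, V k (1 - (a k * x) ^ 2)) / ENNReal.ofReal (D a k) +
          ∑ m ∈ Finset.range k, V (m + 1) 1 / ENNReal.ofReal (D a (m + 1)) := hc2
      _ ≤ ((∑' j, V (k + 1) (s j)) / ENNReal.ofReal (a k) + V (k + 1) 1 / ENNReal.ofReal (a k)) /
            ENNReal.ofReal (D a k) +
          ∑ m ∈ Finset.range k, V (m + 1) 1 / ENNReal.ofReal (D a (m + 1)) := by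
          gcongr
          exact monotone_sum hak k
      _ = _ := by
          rw [e3, e3, ENNReal.add_div]
          ring

end Pool.Agent.Q146.TR
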