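import Pool.Agent.Q146.TR.Exist

/-! Volumes of balls, and the lengths of the tower. -/

set_option autoImplicit false

open Filter MeasureTheory
open scoped Topology ENNReal

namespace Pool.Agent.Q146.TR

/-- volume of the unit ball -/
noncomputable def om (n : ℕ) : ℝ := √Real.pi ^ n / Real.Gamma (n / 2 + 1)

lemma om_pos (n : ℕ) : 0 < om n := by
  unfold om
  have : 0 < Real.Gamma ((n : ℝ) / 2 + 1) := Real.Gamma_pos_of_pos (by positivity)
  positivity

lemma V_one (n : ℕ) : V n 1 = ENNReal.ofReal (om n) := by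
  have h := volume_sum_rpow_lt_one (Fin n) (p := 2) (by norm_num)
  simp only [Real.rpow_two, sq_abs, Fintype.card_fin] at h
  rw [V, h, om]
  congr 2
  have h2 : Real.Gamma (1 / 2 + 1) = √Real.pi / 2 := by
    rw [Real.Gamma_add_one (by norm_num), Real.Gamma_one_half_eq]
    ring
  rw [h2]
  congr 1
  ring

lemma om_add_two (n : ℕ) : om (n + 2) = om n * (2 * Real.pi / (n + 2)) := by
  unfold om
  have h1 : ((n + 2 : ℕ) : ℝ) / 2 + 1 = ((n : ℝ) / 2 + 1) + 1 := by push_cast; ring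
  rw [h1, Real.Gamma_add_one (by positivity), pow_add, Real.sq_sqrt Real.pi_pos.le]
  have h2 : Real.Gamma ((n : ℝ) / 2 + 1) ≠ 0 := (Real.Gamma_pos_of_pos (by positivity)).ne'
  field_simp

/-- quotient of the volumes of consecutive unit balls -/
noncomputable def u (n : ℕ) : ℝ := om (n + 1) / om n

lemma u_pos (n : ℕ) : 0 < u n := div_pos (om_pos _) (om_pos _)

lemma u_mul (n : ℕ) : u (n + 1) * u n = 2 * Real.pi / (n + 2) := by
  unfold u
  rw [om_add_two]
  have h1 := (om_pos n).ne'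
  have h2 := (om_pos (n + 1)).ne'
  field_simp

lemma u_anti (n : ℕ) : u (n + 1) ≤ u n := by
  unfold u
  rw [div_le_div_iff₀ (om_pos _) (om_pos _)]
  unfold om
  have h1 := Real.Gamma_mul_add_mul_le_rpow_Gamma_mul_rpow_Gamma (s := (n : ℝ) / 2 + 1)
    (t := ((n + 1 + 1 : ℕ) : ℝ) / 2 + 1) (a := 1 / 2) (b := 1 / 2) (by positivity) (by positivity)
    (by norm_num) (by norm_num) (by norm_num)
  have e1 : (1 / 2 : ℝ) * ((n : ℝ) / 2 + 1) + 1 / 2 * (((n + 1 + 1 : ℕ) : ℝ) / 2 + 1) =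
      ((n + 1 : ℕ) : ℝ) / 2 + 1 := by push_cast; ring
  rw [e1] at h1
  have p1 : 0 < Real.Gamma ((n : ℝ) / 2 + 1) := Real.Gamma_pos_of_pos (by positivity)
  have p2 : 0 < Real.Gamma (((n + 1 : ℕ) : ℝ) / 2 + 1) := Real.Gamma_pos_of_pos (by positivity)
  have p3 : 0 < Real.Gamma (((n + 1 + 1 : ℕ) : ℝ) / 2 + 1) := Real.Gamma_pos_of_pos (by positivity)
  rw [← Real.mul_rpow p1.le p3.le, ← Real.sqrt_eq_rpow] at h1
  have h2 : Real.Gamma (((n + 1 : ℕ) : ℝ) / 2 + 1) ^ 2 ≤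
      Real.Gamma ((n : ℝ) / 2 + 1) * Real.Gamma (((n + 1 + 1 : ℕ) : ℝ) / 2 + 1) := by
    calc _ ≤ (√(Real.Gamma ((n : ℝ) / 2 + 1) * Real.Gamma (((n + 1 + 1 : ℕ) : ℝ) / 2 + 1))) ^ 2 :=
          pow_le_pow_left₀ p2.le h1 2
      _ = _ := Real.sq_sqrt (by positivity)
  rw [div_mul_div_comm, div_mul_div_comm, div_le_div_iff₀ (by positivity) (by positivity)]
  have e2 : √Real.pi ^ (n + 1 + 1) * √Real.pi ^ n = √Real.pi ^ (n + 1) * √Real.pi ^ (n + 1) := by
    rw [← pow_add, ← pow_add]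
    congr 1
    ring
  rw [e2]
  apply mul_le_mul_of_nonneg_left _ (by positivity)
  nlinarith

lemma u_sq_le {n : ℕ} (hn : 1 ≤ n) : u n ^ 2 ≤ 2 * Real.pi / (n + 1) := by
  obtain ⟨m, rfl⟩ : ∃ m, n = m + 1 := ⟨n - 1, by omega⟩
  have h1 := u_mul m
  have h2 := u_anti m
  have h3 := u_pos (m + 1)
  push_cast
  rw [show ((m : ℝ) + 1 + 1) = m + 2 by ring]
  nlinarith

lemma le_u_sq (n : ℕ) : 2 * Real.pi / (n + 2) ≤ u n ^ 2 := by
  have h1 := u_mul n
  have h2 := u_anti n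
  have h3 := u_pos n
  nlinarith

lemma tendsto_u : Tendsto (fun n : ℕ => √n * u n) atTop (𝓝 √(2 * Real.pi)) := by
  have h0 : Tendsto (fun n : ℕ => (n : ℝ) / (n + 2)) atTop (𝓝 1) := by
    have : Tendsto (fun n : ℕ => 1 - 2 / ((n : ℝ) + 2)) atTop (𝓝 (1 - 0)) := by
      refine tendsto_const_nhds.sub (tendsto_const_nhds.div_atTop ?_)
      exact tendsto_atTop_add_const_right _ _ tendsto_natCast_atTop_atTop
    rw [sub_zero] at this
    refine this.congr fun n => ?_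
    field_simp
    ring
  have h1 : Tendsto (fun n : ℕ => 2 * Real.pi * ((n : ℝ) / (n + 2))) atTop (𝓝 (2 * Real.pi)) := by
    simpa using h0.const_mul (2 * Real.pi)
  have h2 : Tendsto (fun n : ℕ => (n : ℝ) * u n ^ 2) atTop (𝓝 (2 * Real.pi)) := by
    refine tendsto_of_tendsto_of_tendsto_of_le_of_le' h1 tendsto_const_nhds ?_ ?_
    · filter_upwards with n
      have := le_u_sq n
      calc 2 * Real.pi * ((n : ℝ) / (n + 2)) = n * (2 * Real.pi / (n + 2)) := by ring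
        _ ≤ _ := mul_le_mul_of_nonneg_left this (Nat.cast_nonneg n)
    · filter_upwards [eventually_ge_atTop 1] with n hn
      have := u_sq_le hn
      calc (n : ℝ) * u n ^ 2 ≤ n * (2 * Real.pi / (n + 1)) :=
            mul_le_mul_of_nonneg_left this (Nat.cast_nonneg n)
        _ = 2 * Real.pi * (n / (n + 1)) := by ring
        _ ≤ 2 * Real.pi * 1 := by
            apply mul_le_mul_of_nonneg_left _ (by positivity)
            rw [div_le_one (by positivity)]
            linarith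
        _ = _ := by ring
  refine h2.sqrt.congr fun n => ?_
  rw [Real.sqrt_mul (Nat.cast_nonneg n), Real.sqrt_sq (u_pos n).le]

/-- the lengths -/
noncomputable def len (ρ : ℝ) : ℕ → ℝ
  | 0 => ρ * om 1
  | n + 1 => ρ * ((n + 2 : ℝ) / (n + 1)) ^ 2 * u (n + 1)

lemma len_pos {ρ : ℝ} (hρ : 0 < ρ) : ∀ n, 0 < len ρ n
  | 0 => mul_pos hρ (om_pos 1)
  | n + 1 => by
    have := u_pos (n + 1)
    rw [len]
    positivity

lemma D_len {ρ : ℝ} (n : ℕ) : D (len ρ) (n + 1) = ρ ^ (n + 1) * ((n : ℝ) + 1) ^ 2 * om (n + 1) := by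
  induction n with
  | zero =>
    rw [D, Finset.prod_range_one, len]
    norm_num
  | succ n ih =>
    rw [D, Finset.prod_range_succ]
    rw [D] at ih
    rw [ih, len, u]
    have h1 := (om_pos (n + 1)).ne'
    push_cast
    field_simp
    ring

lemma tendsto_len {ρ : ℝ} : Tendsto (fun n : ℕ => √n * len ρ n) atTop (𝓝 (ρ * √(2 * Real.pi))) := by
  have h1 : Tendsto (fun n : ℕ => ((n + 2 : ℝ) / (n + 1)) ^ 2) atTop (𝓝 1) := by
    have h2 : Tendsto (fun n : ℕ => 1 + 1 / ((n : ℝ) + 1)) atTop (𝓝 (1 + 0)) :=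
      tendsto_const_nhds.add tendsto_one_div_add_atTop_nhds_zero_nat
    rw [add_zero] at h2
    have h3 := h2.pow 2
    rw [one_pow] at h3
    refine h3.congr fun n => ?_
    congr 1
    field_simp
    ring
  have h2 : Tendsto (fun n : ℕ => √((n + 1 : ℕ) : ℝ) * u (n + 1)) atTop (𝓝 √(2 * Real.pi)) :=
    tendsto_u.comp (tendsto_add_atTop_nat 1)
  rw [← tendsto_add_atTop_iff_nat 1]
  have h3 := (h1.mul h2).const_mul ρ
  rw [one_mul] at h3
  refine h3.congr fun n => ?_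
  rw [len]
  push_cast
  ring

lemma sum_lt {ρ : ℝ} (hρ : 1 ≤ ρ) (n : ℕ) :
    ∑ m ∈ Finset.range n, V (m + 1) 1 / ENNReal.ofReal (D (len ρ) (m + 1)) < 2 := by
  have h1 : ∀ m : ℕ, V (m + 1) 1 / ENNReal.ofReal (D (len ρ) (m + 1)) ≤
      ENNReal.ofReal (1 / ((m : ℝ) + 1) ^ 2) := by
    intro m
    have hp := om_pos (m + 1)
    have hDp := D_pos (len_pos (by linarith : 0 < ρ)) (m + 1)
    rw [V_one, ← ENNReal.ofReal_div_of_pos hDp]
    apply ENNReal.ofReal_le_ofReal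
    rw [D_len, div_le_div_iff₀ (by positivity) (by positivity)]
    have : 1 ≤ ρ ^ (m + 1) := one_le_pow₀ hρ
    nlinarith [mul_pos hp (by positivity : (0 : ℝ) < ((m : ℝ) + 1) ^ 2)]
  have h2 : ∀ n : ℕ, ∑ m ∈ Finset.range (n + 1), 1 / ((m : ℝ) + 1) ^ 2 ≤ 2 - 1 / ((n : ℝ) + 1) := by
    intro n
    induction n with
    | zero => norm_num
    | succ n ih =>
      rw [Finset.sum_range_succ]
      have h3 : (1 : ℝ) / (((n + 1 : ℕ) : ℝ) + 1) ^ 2 ≤
          1 / ((n : ℝ) + 1) - 1 / (((n + 1 : ℕ) : ℝ) + 1) := by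
        have e : 1 / ((n : ℝ) + 1) - 1 / (((n + 1 : ℕ) : ℝ) + 1) =
            1 / (((n : ℝ) + 1) * (((n + 1 : ℕ) : ℝ) + 1)) := by
          push_cast
          field_simp
          ring
        rw [e]
        apply one_div_le_one_div_of_le (by positivity)
        push_cast
        nlinarith [(Nat.cast_nonneg n : (0 : ℝ) ≤ n)]
      linarith
  rcases Nat.eq_zero_or_pos n with rfl | hn
  · simp
  obtain ⟨k, rfl⟩ : ∃ k, n = k + 1 := ⟨n - 1, by omega⟩
  calc ∑ m ∈ Finset.range (k + 1), V (m + 1) 1 / ENNReal.ofReal (D (len ρ) (m + 1))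
      ≤ ∑ m ∈ Finset.range (k + 1), ENNReal.ofReal (1 / ((m : ℝ) + 1) ^ 2) :=
        Finset.sum_le_sum fun m _ => h1 m
    _ = ENNReal.ofReal (∑ m ∈ Finset.range (k + 1), 1 / ((m : ℝ) + 1) ^ 2) :=
        (ENNReal.ofReal_sum_of_nonneg fun m _ => by positivity).symm
    _ < 2 := by
        rw [show (2 : ℝ≥0∞) = ENNReal.ofReal 2 by simp, ENNReal.ofReal_lt_ofReal_iff (by norm_num)]
        have := h2 k
        have h4 : (0 : ℝ) < 1 / ((k : ℝ) + 1) := by positivity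
        linarith

end Pool.Agent.Q146.TR
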