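import Pool.Agent.Q146.TR.Mat
import Pool.Agent.Q146.TR.Vol
import Pool.Agent.Q146.TR.Asy
import Pool.Agent.W259.GP.Main
import Pool.Agent.W259.GP.Fin

/-! The towers: existence, dichotomy, thresholds. -/

set_option autoImplicit false

open Filter Finset MeasureTheory
open scoped Topology

namespace Pool.Agent.Q146.TR

open Pool.Agent.H160R3.Herm
open Pool.Agent.TH220.HG (gam)

/-- towers -/
structure Tower (a c : ℕ → ℝ) : Prop where
  pos : ∀ i, 0 < a i
  norms : Tendsto (fun i => c i ^ 2 + a (i + 1) ^ 2) atTop (𝓝 1)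
  inner : Tendsto (fun i => a i * c i) atTop (𝓝 0)
  sep : Sep a c

lemma gam_pos {a c : ℕ → ℝ} (h : Tower a c) {n : ℕ} (hn : 0 < n) : 0 < gam (mat a c n) := by
  unfold gam
  rw [det_mat]
  have h1 := one_le_minSq h.sep hn
  have h2 : 0 < |D a n| := abs_pos.2 (D_pos h.pos n).ne'
  positivity

lemma log_gam {a c : ℕ → ℝ} (h : Tower a c) {n : ℕ} (hn : 0 < n) :
    Real.log (gam (mat a c n)) =
      Real.log (minSq (mat a c n)) - (n⁻¹ : ℝ) * ∑ i ∈ range n, Real.log (a i ^ 2) := by
  unfold gam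
  rw [det_mat]
  have h1 := one_le_minSq h.sep hn
  have h2 := D_pos h.pos n
  rw [abs_of_pos h2, Real.log_div (by linarith) (by positivity), Real.log_rpow h2, D,
    Real.log_prod (fun i _ => (h.pos i).ne')]
  congr 1
  simp only [Real.log_pow]
  rw [← Finset.mul_sum]
  push_cast
  ring

lemma tendsto_log_minSq {a c : ℕ → ℝ} (h : Tower a c) :
    Tendsto (fun n => Real.log (minSq (mat a c n))) atTop (𝓝 0) := by
  have := (Real.continuousAt_log (by norm_num : (1 : ℝ) ≠ 0)).tendsto.comp
    (tendsto_minSq h.sep h.norms)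
  rwa [Real.log_one] at this

lemma tendsto_of_log {f : ℕ → ℝ} {l : ℝ} (hf : ∀ᶠ n in atTop, 0 < f n)
    (h : Tendsto (fun n => Real.log (f n)) atTop (𝓝 l)) : Tendsto f atTop (𝓝 (Real.exp l)) := by
  refine ((Real.continuous_exp.tendsto l).comp h).congr' ?_
  filter_upwards [hf] with n hn
  exact Real.exp_log hn

lemma phase_two {a c : ℕ → ℝ} (h : Tower a c) (ha : Tendsto a atTop (𝓝 1)) :
    Tendsto (fun n => gam (mat a c n)) atTop (𝓝 1) := by
  rw [← Real.exp_zero]
  refine tendsto_of_log ?_ ?_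
  · filter_upwards [eventually_gt_atTop 0] with n hn
    exact gam_pos h hn
  · have h1 : Tendsto (fun i => Real.log (a i ^ 2)) atTop (𝓝 0) := by
      have := (Real.continuousAt_log (by norm_num : (1 : ℝ) ^ 2 ≠ 0)).tendsto.comp (ha.pow 2)
      rwa [one_pow, Real.log_one] at this
    have h2 := (tendsto_log_minSq h).sub h1.cesaro
    rw [sub_zero] at h2
    refine h2.congr' ?_
    filter_upwards [eventually_gt_atTop 0] with n hn
    exact (log_gam h hn).symm

lemma phase_one {a c : ℕ → ℝ} (h : Tower a c) (hc : Tendsto (fun i => |c i|) atTop (𝓝 1))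
    (hc0 : ∀ i, c i ≠ 0) :
    Tendsto (fun n : ℕ => gam (mat a c n) * (∏ i ∈ range n, (a i * c i) ^ 2) ^ ((1 : ℝ) / n)) atTop
      (𝓝 1) := by
  have hp : ∀ n : ℕ, 0 < ∏ i ∈ range n, (a i * c i) ^ 2 := fun n =>
    Finset.prod_pos fun i _ => by
      have := h.pos i
      have := hc0 i
      positivity
  rw [show 𝓝 (1 : ℝ) = 𝓝 (Real.exp 0) by rw [Real.exp_zero]]
  refine tendsto_of_log ?_ ?_
  · filter_upwards [eventually_gt_atTop 0] with n hn
    have := gam_pos h hn
    have := hp n
    positivity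
  · have h1 : Tendsto (fun i => Real.log (c i ^ 2)) atTop (𝓝 0) := by
      have := (Real.continuousAt_log (by norm_num : (1 : ℝ) ^ 2 ≠ 0)).tendsto.comp (hc.pow 2)
      simp only [Function.comp_def, sq_abs] at this
      rwa [one_pow, Real.log_one] at this
    have h2 := (tendsto_log_minSq h).add h1.cesaro
    rw [add_zero] at h2
    refine h2.congr' ?_
    filter_upwards [eventually_gt_atTop 0] with n hn
    have hn' : (0 : ℝ) < n := by exact_mod_cast hn
    have h3 := gam_pos h hn
    have h4 := hp n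
    rw [Real.log_mul h3.ne' (by positivity), log_gam h hn, Real.log_rpow h4,
      Real.log_prod (fun i _ => by
        have := h.pos i
        have := hc0 i
        positivity)]
    have h5 : ∑ i ∈ range n, Real.log ((a i * c i) ^ 2) =
        ∑ i ∈ range n, Real.log (a i ^ 2) + ∑ i ∈ range n, Real.log (c i ^ 2) := by
      rw [← Finset.sum_add_distrib]
      refine Finset.sum_congr rfl fun i _ => ?_
      rw [mul_pow, Real.log_mul (by have := h.pos i; positivity) (by have := hc0 i; positivity)]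
    rw [h5]
    ring

lemma growth {a c : ℕ → ℝ} (h : Tower a c) {κ : ℝ} (hκ : 0 < κ)
    (hk : Tendsto (fun i : ℕ => √i * a i) atTop (𝓝 κ)) :
    Tendsto (fun n : ℕ => gam (mat a c n) / n) atTop (𝓝 (1 / (Real.exp 1 * κ ^ 2))) := by
  have e : 1 / (Real.exp 1 * κ ^ 2) = Real.exp (0 - (Real.log (κ ^ 2) + 1)) := by
    rw [Real.exp_sub, Real.exp_add, Real.exp_zero, Real.exp_log (by positivity), mul_comm]
  rw [e]
  refine tendsto_of_log ?_ ?_
  · filter_upwards [eventually_gt_atTop 0] with n hn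
    have := gam_pos h hn
    have hn' : (0 : ℝ) < n := by exact_mod_cast hn
    positivity
  · refine ((tendsto_log_minSq h).sub (geom hκ h.pos hk)).congr' ?_
    filter_upwards [eventually_gt_atTop 0] with n hn
    have hn' : (0 : ℝ) < n := by exact_mod_cast hn
    rw [Real.log_div (gam_pos h hn).ne' hn'.ne', log_gam h hn]
    ring

lemma gam_le {a c : ℕ → ℝ} (h : Tower a c) {n : ℕ} (hn : 0 < n) :
    gam (mat a c n) ≤ hermite n :=
  le_hermite hn _ (by rw [det_mat]; exact (D_pos h.pos n).ne')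

lemma herm_bound {ε : ℝ} (hε : 0 < ε) : ∀ᶠ n : ℕ in atTop, hermite n / n ≤ 1 / Real.pi ^ 2 + ε :=
  Pool.Agent.W259.GP.hermite_bound Pool.Agent.W259.GP.s_main ε hε

theorem threshold {a c : ℕ → ℝ} (h : Tower a c) {κ : ℝ} (hκ : κ < Real.pi / √(Real.exp 1))
    (hk : ∀ᶠ i : ℕ in atTop, √i * |a i * c i| ≤ κ) :
    Tendsto (fun n => gam (mat a c n)) atTop (𝓝 1) := by
  rcases dichotomy h.pos h.norms h.inner with h1 | h1
  · exact phase_two h h1.1
  exfalso
  have hb : 0 < Real.pi / √(Real.exp 1) := by positivity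
  obtain ⟨κ', hk1, hk2⟩ := exists_between (max_lt hκ hb)
  have hk0 : 0 < κ' := lt_of_le_of_lt (le_max_right _ _) hk1
  have hkk : κ < κ' := lt_of_le_of_lt (le_max_left _ _) hk1
  -- the comparison sequence
  set a' : ℕ → ℝ := fun i => if i = 0 then a 0 else max (a i) (κ' / √i) with ha'
  have hpos : ∀ i, 0 < a' i := by
    intro i
    rw [ha']
    simp only
    split_ifs
    · exact h.pos 0
    · exact lt_of_lt_of_le (h.pos i) (le_max_left _ _)
  have hle : ∀ i, a i ≤ a' i := by
    intro i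
    rw [ha']
    simp only
    split_ifs with h2
    · rw [h2]
    · exact le_max_left _ _
  have hlim : Tendsto (fun i : ℕ => √i * a' i) atTop (𝓝 κ') := by
    refine Tendsto.congr' ?_ tendsto_const_nhds
    have h3 : ∀ᶠ i in atTop, κ < κ' * |c i| := by
      have := h1.2.const_mul κ'
      rw [mul_one] at this
      exact this.eventually_const_lt hkk
    filter_upwards [h3, hk, eventually_gt_atTop 0] with i h4 h5 h6
    have h6' : (0 : ℝ) < i := by exact_mod_cast h6
    have h7 : 0 < √(i : ℝ) := Real.sqrt_pos.2 h6'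
    rw [ha']
    simp only
    rw [if_neg (by omega), max_eq_right]
    · field_simp
    · rw [le_div_iff₀ h7]
      have h8 : |c i| > 0 := by
        by_contra h9
        rw [not_lt] at h9
        have : |c i| = 0 := le_antisymm h9 (abs_nonneg _)
        rw [this, mul_zero] at h4
        have h10 : 0 ≤ √(i : ℝ) * |a i * c i| := by positivity
        linarith
      rw [abs_mul, abs_of_pos (h.pos i)] at h5
      by_contra h9
      rw [not_le] at h9
      nlinarith
  have h2 := geom hk0 hpos hlim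
  -- the limit of the lower bound
  set l : ℝ := Real.log (κ' ^ 2) + 1 with hl
  have h3 : Tendsto (fun n : ℕ => Real.exp (-((n⁻¹ : ℝ) * ∑ i ∈ range n, Real.log (a' i ^ 2) +
      Real.log n))) atTop (𝓝 (Real.exp (-l))) :=
    (Real.continuous_exp.tendsto _).comp h2.neg
  have h4 : Real.exp (-l) ≤ 1 / Real.pi ^ 2 := by
    refine le_of_forall_pos_le_add fun ε hε => ?_
    refine le_of_tendsto h3 ?_
    filter_upwards [herm_bound hε, eventually_gt_atTop 0] with n hn1 hn
    have hn' : (0 : ℝ) < n := by exact_mod_cast hn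
    refine le_trans ?_ hn1
    have h5 : gam (mat a c n) / n ≤ hermite n / n :=
      div_le_div_of_nonneg_right (gam_le h hn) hn'.le
    refine le_trans ?_ h5
    have h6 := gam_pos h hn
    have h7 : gam (mat a c n) / n = Real.exp (Real.log (gam (mat a c n)) - Real.log n) := by
      rw [Real.exp_sub, Real.exp_log h6, Real.exp_log hn']
    rw [h7, Real.exp_le_exp, log_gam h hn]
    have h8 : 0 ≤ Real.log (minSq (mat a c n)) := Real.log_nonneg (one_le_minSq h.sep hn)
    have h9 : (n⁻¹ : ℝ) * ∑ i ∈ range n, Real.log (a i ^ 2) ≤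
        (n⁻¹ : ℝ) * ∑ i ∈ range n, Real.log (a' i ^ 2) := by
      apply mul_le_mul_of_nonneg_left _ (by positivity)
      refine Finset.sum_le_sum fun i _ => ?_
      have := h.pos i
      exact Real.log_le_log (by positivity) (pow_le_pow_left₀ this.le (hle i) 2)
    linarith
  have h5 : Real.exp (-l) = 1 / (κ' ^ 2 * Real.exp 1) := by
    rw [Real.exp_neg, hl, Real.exp_add, Real.exp_log (by positivity), one_div]
  rw [h5, one_div_le_one_div (by positivity) (by positivity)] at h4
  have h6 : κ' ^ 2 < (Real.pi / √(Real.exp 1)) ^ 2 := pow_lt_pow_left₀ hk2 hk0.le (by norm_num)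
  rw [div_pow, Real.sq_sqrt (Real.exp_pos 1).le, lt_div_iff₀ (Real.exp_pos 1)] at h6
  linarith

theorem growth' {a c : ℕ → ℝ} (h : Tower a c) {κ : ℝ} (hκ : 0 < κ)
    (hk : Tendsto (fun i : ℕ => √i * |a i * c i|) atTop (𝓝 κ)) :
    Tendsto (fun n => gam (mat a c n)) atTop (𝓝 1) ∨
      (Tendsto (fun n : ℕ => gam (mat a c n) / n) atTop (𝓝 (1 / (Real.exp 1 * κ ^ 2))) ∧
        1 / (Real.exp 1 * κ ^ 2) ≤ liminf (fun n : ℕ => hermite n / n) atTop) := by
  rcases dichotomy h.pos h.norms h.inner with h1 | h1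
  · left
    exact phase_two h h1.1
  right
  have h2 : Tendsto (fun i : ℕ => √i * a i) atTop (𝓝 κ) := by
    have h3 := hk.div h1.2 one_ne_zero
    rw [div_one] at h3
    refine h3.congr' ?_
    have h4 : ∀ᶠ i in atTop, 0 < |c i| := h1.2.eventually_const_lt (by norm_num)
    filter_upwards [h4] with i hi
    show √i * |a i * c i| / |c i| = √i * a i
    rw [abs_mul, abs_of_pos (h.pos i)]
    field_simp
  have h3 := growth h hκ h2
  refine ⟨h3, ?_⟩
  refine le_of_forall_pos_le_add fun ε hε => ?_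
  rw [← sub_le_iff_le_add]
  refine le_liminf_of_le ?_ ?_
  · refine IsBoundedUnder.isCoboundedUnder_ge ⟨1, ?_⟩
    rw [eventually_map]
    filter_upwards [eventually_gt_atTop 0] with n hn
    have hn' : (0 : ℝ) < n := by exact_mod_cast hn
    rw [div_le_one hn']
    exact hermite_le hn
  · filter_upwards [h3.eventually_const_lt (sub_lt_self _ hε), eventually_gt_atTop 0] with n h4 hn
    have hn' : (0 : ℝ) < n := by exact_mod_cast hn
    exact h4.le.trans (div_le_div_of_nonneg_right (gam_le h hn) hn'.le)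

theorem exist {κ : ℝ} (hκ : √(2 * Real.pi) ≤ κ) : ∃ a c : ℕ → ℝ, Tower a c ∧ (∀ i, 1 ≤ c i) ∧
    Tendsto (fun i : ℕ => √i * (a i * c i)) atTop (𝓝 κ) ∧
    Tendsto (fun n : ℕ => gam (mat a c n) / n) atTop (𝓝 (1 / (Real.exp 1 * κ ^ 2))) ∧
    ∀ n : ℕ, 0 < n → (mat a c n).det = (κ / √(2 * Real.pi)) ^ n * n ^ 2 *
      (volume (Metric.ball (0 : EuclideanSpace ℝ (Fin n)) 1)).toReal := by
  have h2pi : 0 < √(2 * Real.pi) := Real.sqrt_pos.2 (by positivity)
  have hκ0 : 0 < κ := lt_of_lt_of_le h2pi hκ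
  set ρ : ℝ := κ / √(2 * Real.pi) with hρ
  have hρ1 : 1 ≤ ρ := (one_le_div h2pi).2 hκ
  have hpos := len_pos (by linarith : 0 < ρ)
  obtain ⟨c, hc, hs⟩ := exists_tower hpos (sum_lt hρ1)
  have hlen : Tendsto (fun n : ℕ => √n * len ρ n) atTop (𝓝 κ) := by
    have := tendsto_len (ρ := ρ)
    rwa [hρ, div_mul_cancel₀ _ h2pi.ne'] at this
  have hlen0 : Tendsto (len ρ) atTop (𝓝 0) := by
    have h1 : Tendsto (fun n : ℕ => √(n : ℝ)) atTop atTop :=
      Real.tendsto_sqrt_atTop.comp tendsto_natCast_atTop_atTop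
    have h2 := hlen.div_atTop h1
    refine h2.congr' ?_
    filter_upwards [eventually_gt_atTop 0] with n hn
    have : 0 < √(n : ℝ) := Real.sqrt_pos.2 (by exact_mod_cast hn)
    field_simp
  have hc1 : Tendsto c atTop (𝓝 1) := by
    refine tendsto_of_tendsto_of_tendsto_of_le_of_le tendsto_const_nhds ?_ (fun i => (hc i).1)
      (fun i => (hc i).2)
    have := hlen0.const_add 1
    rwa [add_zero] at this
  have hT : Tower (len ρ) c :=
    { pos := hpos
      norms := by
        have h1 := (hc1.pow 2).add ((hlen0.comp (tendsto_add_atTop_nat 1)).pow 2)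
        simpa using h1
      inner := by
        have := hlen0.mul hc1
        simpa using this
      sep := by
        intro n w hw
        rw [norm_mat]
        exact hs n _ (ext_ne hw) (ext_zero w) }
  refine ⟨len ρ, c, hT, fun i => (hc i).1, ?_, growth hT hκ0 hlen, ?_⟩
  · have := hlen.mul hc1
    rw [mul_one] at this
    refine this.congr fun i => ?_
    ring
  · intro n hn
    obtain ⟨k, rfl⟩ : ∃ k, n = k + 1 := ⟨n - 1, by omega⟩
    rw [det_mat, D_len, EuclideanSpace.volume_ball]
    simp only [ENNReal.ofReal_one, one_pow, one_mul, Fintype.card_fin]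
    have h1 := (om_pos (k + 1)).le
    unfold om at h1 ⊢
    rw [ENNReal.toReal_ofReal h1]
    push_cast
    ring

end Pool.Agent.Q146.TR
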