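import Pool.Agent.Q146.TR.Tower
import Pool.Agent.H160R3.Herm.Sum
import Pool.Agent.TH220.HG.Sub

/-! The matrices of the sections of a tower. -/

set_option autoImplicit false

open Filter Finset
open scoped Topology

namespace Pool.Agent.Q146.TR

open Pool.Agent.H160R3.Herm
open Pool.Agent.TH220.HG (gam)

/-- the matrix with the columns `b_0 = a_0 e_0`, `b_j = c_{j-1} e_{j-1} + a_j e_j` -/
def mat (a c : ℕ → ℝ) (n : ℕ) : Matrix (Fin n) (Fin n) ℝ := fun i j =>
  if i = j then a i else if (i : ℕ) + 1 = j then c i else 0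

/-- extension by zero -/
def ext {n : ℕ} (w : Fin n → ℤ) (i : ℕ) : ℤ := if h : i < n then w ⟨i, h⟩ else 0

lemma det_mat (a c : ℕ → ℝ) (n : ℕ) : (mat a c n).det = D a n := by
  rw [Matrix.det_of_upperTriangular]
  · rw [D, ← Fin.prod_univ_eq_prod_range]
    exact Finset.prod_congr rfl fun i _ => by simp [mat]
  · intro i j hij
    have hij' : (j : ℕ) < i := hij
    rw [mat, if_neg (by intro h; rw [h] at hij'; omega), if_neg (by omega)]

lemma mulVec_mat (a c : ℕ → ℝ) {n : ℕ} (w : Fin n → ℤ) (i : Fin n) :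
    (mat a c n).mulVec (fun j => (w j : ℝ)) i = a i * ext w i + c i * ext w (i + 1) := by
  have e1 : ext w i = w i := by
    rw [ext, dif_pos i.2]
  rw [e1]
  simp only [Matrix.mulVec, dotProduct, mat]
  by_cases h : (i : ℕ) + 1 < n
  · have e2 : ext w (i + 1) = w ⟨i + 1, h⟩ := by rw [ext, dif_pos h]
    rw [e2]
    have hne : i ≠ ⟨i + 1, h⟩ := by
      intro h2
      have := congrArg Fin.val h2
      simp at this
    rw [← Finset.sum_subset (Finset.subset_univ ({i, ⟨i + 1, h⟩} : Finset (Fin n)))]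
    · rw [Finset.sum_pair hne, if_pos rfl, if_neg hne, if_pos rfl]
    · intro j _ hj
      simp only [Finset.mem_insert, Finset.mem_singleton, not_or] at hj
      rw [if_neg (fun h2 => hj.1 h2.symm), if_neg (fun h2 => hj.2 (Fin.ext h2.symm)), zero_mul]
  · have e2 : ext w (i + 1) = 0 := by rw [ext, dif_neg h]
    rw [e2]
    rw [Finset.sum_eq_single i]
    · rw [if_pos rfl]
      push_cast
      ring
    · intro j _ hj
      rw [if_neg (fun h2 => hj h2.symm), if_neg (by have := j.2; omega), zero_mul]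
    · intro h2
      exact absurd (Finset.mem_univ i) h2

lemma norm_mat (a c : ℕ → ℝ) {n : ℕ} (w : Fin n → ℤ) :
    ∑ i, ((mat a c n).mulVec (fun j => (w j : ℝ)) i) ^ 2 = N a c n (ext w) := by
  simp only [mulVec_mat]
  rw [N, ← Fin.sum_univ_eq_sum_range (fun i => (a i * (ext w i : ℝ) + c i * (ext w (i + 1) : ℝ)) ^ 2)]

lemma ext_ne {n : ℕ} {w : Fin n → ℤ} (hw : w ≠ 0) : ext w ≠ 0 := by
  intro h
  apply hw
  funext i
  have := congrFun h i
  rwa [ext, dif_pos i.2] at this

lemma ext_zero {n : ℕ} (w : Fin n → ℤ) (i : ℕ) (hi : n ≤ i) : ext w i = 0 := by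
  rw [ext, dif_neg (by omega)]

/-- all nonzero vectors of all sections have norm at least one -/
def Sep (a c : ℕ → ℝ) : Prop := ∀ (n : ℕ) (w : Fin n → ℤ), w ≠ 0 →
  1 ≤ ∑ i, ((mat a c n).mulVec (fun j => (w j : ℝ)) i) ^ 2

lemma one_le_minSq {a c : ℕ → ℝ} (h : Sep a c) {n : ℕ} (hn : 0 < n) : 1 ≤ minSq (mat a c n) :=
  le_minSq hn _ _ (h n)

lemma minSq_le_last (a c : ℕ → ℝ) (n : ℕ) : minSq (mat a c (n + 2)) ≤ c n ^ 2 + a (n + 1) ^ 2 := by
  have h := minSq_le (mat a c (n + 2)) (fun i => if (i : ℕ) = n + 1 then 1 else 0) (by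
    intro h
    have := congrFun h (Fin.last (n + 1))
    simp at this)
  refine h.trans (le_of_eq ?_)
  rw [norm_mat, N, Finset.sum_range_succ, Finset.sum_range_succ, Finset.sum_eq_zero]
  · have e1 : ext (fun i : Fin (n + 2) => if (i : ℕ) = n + 1 then (1 : ℤ) else 0) n = 0 := by
      rw [ext, dif_pos (by omega)]
      simp
    have e2 : ext (fun i : Fin (n + 2) => if (i : ℕ) = n + 1 then (1 : ℤ) else 0) (n + 1) = 1 := by
      rw [ext, dif_pos (by omega)]
      simp
    have e3 : ext (fun i : Fin (n + 2) => if (i : ℕ) = n + 1 then (1 : ℤ) else 0) (n + 1 + 1) = 0 :=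
      ext_zero _ _ (by omega)
    rw [e1, e2, e3]
    push_cast
    ring
  · intro i hi
    rw [Finset.mem_range] at hi
    have e1 : ext (fun i : Fin (n + 2) => if (i : ℕ) = n + 1 then (1 : ℤ) else 0) i = 0 := by
      rw [ext, dif_pos (by omega)]
      simp
      omega
    have e2 : ext (fun i : Fin (n + 2) => if (i : ℕ) = n + 1 then (1 : ℤ) else 0) (i + 1) = 0 := by
      rw [ext, dif_pos (by omega)]
      simp
      omega
    rw [e1, e2]
    push_cast
    ring

/-- the least squared norms of the sections tend to one -/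
lemma tendsto_minSq {a c : ℕ → ℝ} (h : Sep a c)
    (hb : Tendsto (fun i => c i ^ 2 + a (i + 1) ^ 2) atTop (𝓝 1)) :
    Tendsto (fun n => minSq (mat a c n)) atTop (𝓝 1) := by
  rw [← tendsto_add_atTop_iff_nat 2]
  refine tendsto_of_tendsto_of_tendsto_of_le_of_le tendsto_const_nhds hb ?_ ?_
  · intro n
    exact one_le_minSq h (by omega)
  · intro n
    exact minSq_le_last a c n

end Pool.Agent.Q146.TR
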