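import Pool.Agent.Q146.TR.Exist

/-! Towers of lattices with tridiagonal Gram matrix and minimum one. -/

set_option autoImplicit false

open MeasureTheory Set
open scoped ENNReal

namespace Pool.Agent.Q146.TR

/-- the squared norm of the vector with coefficients `x` (of which only the first `n` are not zero) -/
noncomputable def N (a c : ℕ → ℝ) (n : ℕ) (x : ℕ → ℤ) : ℝ :=
  ∑ i ∈ Finset.range n, (a i * x i + c i * x (i + 1)) ^ 2

lemma exists_top {n : ℕ} {x : ℕ → ℤ} (hx : x ≠ 0) (hn : ∀ i, n ≤ i → x i = 0) :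
    ∃ m < n, x m ≠ 0 ∧ ∀ i, m < i → x i = 0 := by
  induction n with
  | zero =>
    exact absurd (funext fun i => hn i (Nat.zero_le i)) hx
  | succ n ih =>
    by_cases h : x n = 0
    · obtain ⟨m, hm, h1, h2⟩ := ih (fun i hi => by
        rcases Nat.eq_or_lt_of_le hi with h3 | h3
        · rw [← h3]; exact h
        · exact hn i h3)
      exact ⟨m, by omega, h1, h2⟩
    · exact ⟨n, by omega, h, fun i hi => hn i hi⟩

lemma N_top (a c : ℕ → ℝ) {n m : ℕ} (hm : m < n) {x : ℕ → ℤ} (h : ∀ i, m < i → x i = 0) :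
    N a c n x = ∑ i ∈ Finset.range m, (a i * x i + c i * x (i + 1)) ^ 2 + (a m * x m) ^ 2 := by
  rw [N, ← Finset.sum_subset (Finset.range_subset_range.2 hm : Finset.range (m + 1) ⊆ _)]
  · rw [Finset.sum_range_succ, h (m + 1) (by omega)]
    push_cast
    ring
  · intro i _ hi
    rw [Finset.mem_range] at hi
    rw [h i (by omega), h (i + 1) (by omega)]
    push_cast
    ring

lemma exists_good {a : ℕ → ℝ} (ha : ∀ i, 0 < a i) (n : ℕ)
    (h : ∑ m ∈ Finset.range n, V (m + 1) 1 / ENNReal.ofReal (D a (m + 1)) < 2) :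
    ∃ c : ℕ → ℝ, (∀ i, c i ∈ Icc 1 (1 + a i)) ∧
      ∀ x : ℕ → ℤ, x ≠ 0 → (∀ i, n ≤ i → x i = 0) → 1 ≤ N a c n x := by
  obtain ⟨c, hc, hc2⟩ := main_ineq ha n Empty (fun j => j.elim) (fun j => j.elim)
    (fun j => j.elim) (fun j => j.elim)
  simp only [tsum_empty, ENNReal.zero_div, zero_add] at hc2
  refine ⟨c, hc, fun x hx hxn => ?_⟩
  by_contra hlt
  rw [not_le] at hlt
  obtain ⟨m, hm, hxm, htop⟩ := exists_top hx hxn
  rw [N_top a c hm htop] at hlt
  have h1 : 1 ≤ Cnt a c m (x m) (1 - (a m * x m) ^ 2) := Cnt_pos a c x m (by linarith)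
  have h2 : 1 ≤ Cnt a c m (-x m) (1 - (a m * ((-x m : ℤ) : ℝ)) ^ 2) := by
    have := Cnt_pos a c (fun i => -x i) m (s := 1 - (a m * ((-x m : ℤ) : ℝ)) ^ 2) (by
      have e : ∑ i ∈ Finset.range m, (a i * ((-x i : ℤ) : ℝ) + c i * ((-x (i + 1) : ℤ) : ℝ)) ^ 2 =
          ∑ i ∈ Finset.range m, (a i * x i + c i * x (i + 1)) ^ 2 := by
        refine Finset.sum_congr rfl fun i _ => ?_
        push_cast
        ring
      rw [e]
      push_cast
      nlinarith)
    exact this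
  have hne : x m ≠ -x m := by omega
  have h3 : (2 : ℝ≥0∞) ≤ ∑' y : {x : ℤ // x ≠ 0}, Cnt a c m y (1 - (a m * y) ^ 2) := by
    have h4 := ENNReal.sum_le_tsum
      (f := fun y : {x : ℤ // x ≠ 0} => Cnt a c m y (1 - (a m * y) ^ 2))
      ({⟨x m, hxm⟩, ⟨-x m, neg_ne_zero.2 hxm⟩} : Finset {x : ℤ // x ≠ 0})
    rw [Finset.sum_pair (by
      intro h5
      exact hne (congrArg Subtype.val h5))] at h4
    refine le_trans ?_ h4
    calc (2 : ℝ≥0∞) = 1 + 1 := by norm_num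
      _ ≤ _ := add_le_add h1 h2
  have h5 : ∑' y : {x : ℤ // x ≠ 0}, Cnt a c m y (1 - (a m * y) ^ 2) ≤
      ∑ m ∈ Finset.range n, ∑' y : {x : ℤ // x ≠ 0}, Cnt a c m y (1 - (a m * y) ^ 2) :=
    Finset.single_le_sum (f := fun m => ∑' y : {x : ℤ // x ≠ 0}, Cnt a c m y (1 - (a m * y) ^ 2))
      (fun _ _ => zero_le) (Finset.mem_range.2 hm)
  exact absurd (lt_of_le_of_lt ((h3.trans h5).trans hc2) h) (lt_irrefl _)

theorem exists_tower {a : ℕ → ℝ} (ha : ∀ i, 0 < a i)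
    (h : ∀ n, ∑ m ∈ Finset.range n, V (m + 1) 1 / ENNReal.ofReal (D a (m + 1)) < 2) :
    ∃ c : ℕ → ℝ, (∀ i, c i ∈ Icc 1 (1 + a i)) ∧
      ∀ (n : ℕ) (x : ℕ → ℤ), x ≠ 0 → (∀ i, n ≤ i → x i = 0) → 1 ≤ N a c n x := by
  set B : Set (ℕ → ℝ) := Set.pi univ fun i => Icc 1 (1 + a i) with hB
  set K : ℕ → Set (ℕ → ℝ) := fun n =>
    B ∩ ⋂ (x : ℕ → ℤ) (_ : x ≠ 0) (_ : ∀ i, n ≤ i → x i = 0), {c | 1 ≤ N a c n x} with hK
  have hBc : IsCompact B := isCompact_univ_pi fun i => isCompact_Icc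
  have hcl : ∀ n, IsClosed (K n) := by
    intro n
    refine hBc.isClosed.inter (isClosed_iInter fun x => isClosed_iInter fun _ =>
      isClosed_iInter fun _ => ?_)
    refine isClosed_le continuous_const ?_
    unfold N
    fun_prop
  have hmem : ∀ n c, c ∈ K n ↔ (∀ i, c i ∈ Icc 1 (1 + a i)) ∧
      ∀ x : ℕ → ℤ, x ≠ 0 → (∀ i, n ≤ i → x i = 0) → 1 ≤ N a c n x := by
    intro n c
    rw [hK]
    simp only [mem_inter_iff, mem_iInter, mem_ofPred_eq, hB, Set.mem_pi, mem_univ, forall_const]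
  obtain ⟨c, hc⟩ := IsCompact.nonempty_iInter_of_sequence_nonempty_isCompact_isClosed K
    (by
      intro n c hc
      rw [hmem] at hc ⊢
      refine ⟨hc.1, fun x hx hxn => ?_⟩
      have h1 := hc.2 x hx (fun i hi => hxn i (by omega))
      rw [N, Finset.sum_range_succ, hxn n le_rfl, hxn (n + 1) (by omega)] at h1
      simpa [N] using h1)
    (by
      intro n
      obtain ⟨c, hc, hc2⟩ := exists_good ha n (h n)
      exact ⟨c, (hmem n c).2 ⟨hc, hc2⟩⟩)
    (hBc.inter_right (by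
      refine isClosed_iInter fun x => isClosed_iInter fun _ => isClosed_iInter fun _ => ?_
      refine isClosed_le continuous_const ?_
      unfold N
      fun_prop)) hcl
  rw [mem_iInter] at hc
  exact ⟨c, ((hmem 0 c).1 (hc 0)).1, fun n => ((hmem n c).1 (hc n)).2⟩

end Pool.Agent.Q146.TR
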